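import Pool.Agent.R812.EV.Asm
import Pool.Agent.R812.EV.MIXED
import Pool.Agent.R812.EV.SLICE
import Pool.Agent.R812.EV.CONTACT
import Pool.Agent.R812.EV.HP
import Pool.Agent.R812.EV.ISO
import Pool.Agent.R812.EV.RECT
import Pool.Agent.R812.EV.NORM
import Pool.Agent.R812.EV.LONG
import Pool.Agent.R812.EV.COMPACT
import Pool.Agent.R812.EV.CONT

/-!
# Extremal values of ratios of first p-Laplacian eigenvalues of planar convex sets
-/

open MeasureTheory Set Metric Filter Topology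

namespace Pool.Agent.Results.MP_d18ab3_an.RatioExtremals

/-- The first Dirichlet eigenvalue of the `p`-Laplacian on `Ω`: the infimum of the Rayleigh
quotients of the nonzero `C¹` functions with compact support in `Ω` (by density this is the minimum
over the nonzero functions of `W₀^{1,p}(Ω)`). -/
noncomputable def firstEigenvalue {E : Type*} [NormedAddCommGroup E] [InnerProductSpace ℝ E]
    [MeasureSpace E] (p : ℝ) (Ω : Set E) : ℝ :=
  sInf {r | ∃ u : E → ℝ, ContDiff ℝ 1 u ∧ HasCompactSupport u ∧ tsupport u ⊆ Ω ∧ u ≠ 0 ∧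
    r = (∫ x in Ω, ‖fderiv ℝ u x‖ ^ p) / (∫ x in Ω, |u x| ^ p)}

/-- `R_{p,q}(Ω) = λ₁(p;Ω)^{1/p} / λ₁(q;Ω)^{1/q}` -/
noncomputable def R {E : Type*} [NormedAddCommGroup E] [InnerProductSpace ℝ E]
    [MeasureSpace E] (p q : ℝ) (Ω : Set E) : ℝ :=
  firstEigenvalue p Ω ^ (1 / p) / firstEigenvalue q Ω ^ (1 / q)

/-- The one-dimensional constant `C_{p,q}`, the ratio of the interval `(0,1)`. -/
noncomputable def C (p q : ℝ) : ℝ := R p q (Ioo (0 : ℝ) 1)

/-- The class `𝒦` of nonempty bounded open convex subsets of the plane. -/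
def K : Set (Set (EuclideanSpace ℝ (Fin 2))) :=
  {Ω | Ω.Nonempty ∧ Bornology.IsBounded Ω ∧ IsOpen Ω ∧ Convex ℝ Ω}

theorem R_eq {p q : ℝ} (hp : 0 < p) (hq : 0 < q) (Ω : Set (EuclideanSpace ℝ (Fin 2))) :
    R p q Ω = Pool.Agent.R812.EV.rat p q Ω := by
  have e1 := Pool.Agent.Results.MP_a627f3_an.PariniConjecture.principalEigenvalue_eq hp Ω
  have e2 := Pool.Agent.Results.MP_a627f3_an.PariniConjecture.principalEigenvalue_eq hq Ω
  unfold R Pool.Agent.R812.EV.rat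
  rw [← e1, ← e2]
  rfl

theorem C_eq {p q : ℝ} (hp : 1 < p) (hq : 1 < q) :
    C p q = Pool.Agent.TH281.PC.Jr p / Pool.Agent.TH281.PC.Jr q := by
  have e1 := Pool.Agent.Results.MP_a627f3_an.PariniConjecture.principalEigenvalue_eq
    (show 0 < p by linarith) (Ioo (0 : ℝ) 1)
  have e2 := Pool.Agent.Results.MP_a627f3_an.PariniConjecture.principalEigenvalue_eq
    (show 0 < q by linarith) (Ioo (0 : ℝ) 1)
  have e3 : C p q = Pool.Agent.TH281.PC.lam p (Ioo (0 : ℝ) 1) ^ (1 / p) /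
      Pool.Agent.TH281.PC.lam q (Ioo (0 : ℝ) 1) ^ (1 / q) := by
    rw [← e1, ← e2]
    rfl
  rw [e3, Pool.Agent.TH281.PC.lam_unit_rpow hp, Pool.Agent.TH281.PC.lam_unit_rpow hq,
    mul_div_mul_left _ _ two_ne_zero]

/-- For all `1 < q < p < ∞`: (a) the infimum of `R_{p,q}` over the planar bounded convex sets is
attained; (b) its supremum is `C_{p,q}` and is not attained; (c) along every sequence of such sets
of area one whose diameters tend to infinity, `R_{p,q}` tends to `C_{p,q}`. -/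
theorem result (p q : ℝ) (hq : 1 < q) (hqp : q < p) :
    (∃ Ω ∈ K, ∀ Ω' ∈ K, R p q Ω ≤ R p q Ω') ∧
    (IsLUB {r | ∃ Ω ∈ K, r = R p q Ω} (C p q) ∧ ∀ Ω ∈ K, R p q Ω ≠ C p q) ∧
    (∀ Ω : ℕ → Set (EuclideanSpace ℝ (Fin 2)), (∀ k, Ω k ∈ K) → (∀ k, volume (Ω k) = 1) →
      Tendsto (fun k => Metric.diam (Ω k)) atTop atTop →
      Tendsto (fun k => R p q (Ω k)) atTop (𝓝 (C p q))) := by
  have hp : 1 < p := hq.trans hqp
  have hp0 : 0 < p := by linarith
  have hq0 : 0 < q := by linarith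
  have hlt : ∀ Ω : Set (EuclideanSpace ℝ (Fin 2)), Pool.Agent.R812.EV.Adm Ω →
      Pool.Agent.R812.EV.rat p q Ω <
        Pool.Agent.TH281.PC.Jr p / Pool.Agent.TH281.PC.Jr q := by
    intro Ω hΩ
    exact Pool.Agent.TH281.PC.ratio_lt hq hqp le_rfl hΩ.2.2.1 hΩ.2.2.2
      (hΩ.2.2.1.measure_pos volume hΩ.1) hΩ.2.1.measure_lt_top
  have hmix := Pool.Agent.R812.EV.piece_mixed
  have hsl := Pool.Agent.R812.EV.piece_slice hmix
  have hhp := Pool.Agent.R812.EV.piece_hp hsl Pool.Agent.R812.EV.piece_contact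
  have hrect := Pool.Agent.R812.EV.piece_rect Pool.Agent.R812.EV.lib_scale
    Pool.Agent.R812.EV.lib_mono Pool.Agent.R812.EV.lib_box Pool.Agent.R812.EV.piece_iso
    Pool.Agent.R812.EV.lib_J
  have hnorm := Pool.Agent.R812.EV.piece_norm Pool.Agent.R812.EV.lib_scale
    Pool.Agent.R812.EV.lib_J
  have hlong := Pool.Agent.R812.EV.piece_long hrect Pool.Agent.R812.EV.lib_J
  have hcont := Pool.Agent.R812.EV.piece_cont Pool.Agent.R812.EV.lib_scale
    Pool.Agent.R812.EV.lib_mono Pool.Agent.R812.EV.lib_pos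
  refine ⟨?_, ⟨?_, ?_⟩, ?_⟩
  · obtain ⟨Ω, h1, h2⟩ := Pool.Agent.R812.EV.part_a hhp hnorm hlong
      Pool.Agent.R812.EV.piece_compact hcont hq hqp hlt
    refine ⟨Ω, h1, fun Ω' h' => ?_⟩
    rw [R_eq hp0 hq0, R_eq hp0 hq0]
    exact h2 Ω' h'
  · have h := (Pool.Agent.Results.MP_a627f3_an.PariniConjecture.result 2 le_rfl p q hq hqp).1
    have e : {r : ℝ | ∃ Ω : Set (EuclideanSpace ℝ (Fin 2)),
        Pool.Agent.Results.MP_a627f3_an.PariniConjecture.Admissible 2 Ω ∧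
        r = Pool.Agent.Results.MP_a627f3_an.PariniConjecture.ratio p q Ω} =
        {r | ∃ Ω ∈ K, r = R p q Ω} := by
      ext r
      constructor
      · rintro ⟨Ω, ⟨h1, h2, h3, h4⟩, rfl⟩
        exact ⟨Ω, ⟨nonempty_of_measure_ne_zero h3.ne',
          Pool.Agent.TH925.J55.bounded_of_convex_finite h1 h2 h4, h1, h2⟩, rfl⟩
      · rintro ⟨Ω, ⟨h1, h2, h3, h4⟩, rfl⟩
        exact ⟨Ω, ⟨h3, h4, h3.measure_pos volume h1, h2.measure_lt_top⟩, rfl⟩
    rw [e] at h
    exact h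
  · intro Ω hΩ
    rw [R_eq hp0 hq0, C_eq hp hq]
    exact (hlt Ω hΩ).ne
  · intro Ω hΩ hv hd
    have h := Pool.Agent.R812.EV.part_c hhp hnorm hlong hq hqp hlt Ω hΩ hv hd
    rw [C_eq hp hq]
    simpa only [R_eq hp0 hq0] using h

end Pool.Agent.Results.MP_d18ab3_an.RatioExtremals
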